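import Pool.Agent.Helper30_F5K.StmtsR

/-!
MP_f5cbfa_nt, squad F5H, row R_DTS: measure of the degenerate set, with the parameters of the
assembly.
-/

set_option autoImplicit false

open MeasureTheory Complex ComplexConjugate

namespace Pool.Agent.F5H.K2.H77

open Pool.Agent.Helper68_F5 Pool.Agent.F5H.W36 Pool.Agent.F5H.BC Pool.Agent.BTL Pool.Agent.F5S
  Pool.Agent.F5H Pool.Agent.F5H.K2.H30

theorem dts_arith {K Q v0 v1 v2 ρ u L m : ℝ} (hQ : 2 ≤ Q) (hK : K ≤ Q)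
    (hv0 : 0 < v0) (hv1 : 0 < v1) (hv2 : 0 ≤ v2) (hρ : 0 ≤ ρ) (hu0 : 0 < u) (hu1 : u ≤ 1)
    (huv : 1 ≤ u ^ 4 * v1) (hL0 : 0 ≤ L) (hL : L ≤ Q ^ 2) (hm : m ≤ Q ^ 2 * ρ) (hm0 : 0 ≤ m) :
    K * (Q ^ 8) ^ 100 * L ^ 6 *
      ((Q ^ 2 * v0) ^ 2 * (Q ^ 2 * v1) ^ 2 * (Q ^ 2 * v2 * m)) *
      ((Q ^ 2 * v0 / (Q ^ 2 * v1)) ^ 2 * (u ^ 3 + 1 / (Q ^ 2 * v1))) ≤
    Q ^ 826 * (v0 ^ 2 * v1 ^ 2 * (v2 * ρ)) * ((v0 / v1) ^ 2 * u ^ 3) := by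
  have hQ0 : 0 < Q := by linarith
  have hQ1 : 1 ≤ Q := by linarith
  have e1 : Q ^ 2 * v0 / (Q ^ 2 * v1) = v0 / v1 := by field_simp
  have h1 : u ^ 3 + 1 / (Q ^ 2 * v1) ≤ Q * u ^ 3 := by
    have a1 : 1 / v1 ≤ u ^ 4 := by
      rw [div_le_iff₀ hv1]; exact huv
    have a2 : 1 / (Q ^ 2 * v1) ≤ 1 / v1 := by
      refine one_div_le_one_div_of_le hv1 ?_
      have : 1 ≤ Q ^ 2 := one_le_pow₀ hQ1
      nlinarith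
    have a3 : u ^ 4 ≤ u ^ 3 := by
      calc u ^ 4 = u ^ 3 * u := by ring
        _ ≤ u ^ 3 * 1 := mul_le_mul_of_nonneg_left hu1 (by positivity)
        _ = u ^ 3 := mul_one _
    have a4 : 0 < u ^ 3 := by positivity
    nlinarith
  have h2 : L ^ 6 ≤ Q ^ 12 := by
    calc L ^ 6 ≤ (Q ^ 2) ^ 6 := pow_le_pow_left₀ hL0 hL 6
      _ = Q ^ 12 := by ring
  rw [e1]
  calc K * (Q ^ 8) ^ 100 * L ^ 6 *
      ((Q ^ 2 * v0) ^ 2 * (Q ^ 2 * v1) ^ 2 * (Q ^ 2 * v2 * m)) *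
      ((v0 / v1) ^ 2 * (u ^ 3 + 1 / (Q ^ 2 * v1)))
      ≤ Q * (Q ^ 8) ^ 100 * Q ^ 12 *
      ((Q ^ 2 * v0) ^ 2 * (Q ^ 2 * v1) ^ 2 * (Q ^ 2 * v2 * (Q ^ 2 * ρ))) *
      ((v0 / v1) ^ 2 * (Q * u ^ 3)) := by gcongr
    _ = Q ^ 826 * (v0 ^ 2 * v1 ^ 2 * (v2 * ρ)) * ((v0 / v1) ^ 2 * u ^ 3) := by ring

theorem dts (hnwt : NWTStmt) (hcvg : CVGStmt) : DTSStmt := by
  obtain ⟨K, hK, hN⟩ := hnwt
  refine ⟨826, by norm_num, K, ?_⟩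
  intro T Q A V k0 del u z m₁ R₁ hKQ hp hA 𝓗 hH
  have hQbig := hp.hQ
  have hQ2 : 2 ≤ Q := le_trans (by norm_num) hQbig
  have hQ1 : 1 ≤ Q := by linarith
  have hQ0 : 0 < Q := by linarith
  have hT0 : 0 < T := lt_of_lt_of_le one_pos hp.hT
  have hV2 : 1 ≤ V 2 := (one_le_pow₀ hQ1).trans hp.v2
  have hV1 : 1 ≤ V 1 := hV2.trans hp.v21
  have hV0 : 1 ≤ V 0 := hV1.trans hp.v10
  have hq2 : 1 ≤ Q ^ 2 := one_le_pow₀ hQ1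
  have hq2' : 0 < Q ^ 2 := by positivity
  have hmain := hN (gQ Q A) (sep_gQ hQ1 hA) (Q ^ 8) ((Q * T) ^ 2) (Q ^ 2 * (Rx T / T))
    (Q ^ 2 * V 0) (Q ^ 2 * V 1) (Q ^ 2 * V 2) (u ^ 3) (Q ^ 2 * V 1)
    (one_le_pow₀ hQ1) (hcvg Q A hQ2 hA) ?_ (le_refl _) (by positivity) hp.v7
    (by nlinarith) (mul_le_mul_of_nonneg_left hp.v21 hq2'.le)
    (mul_le_mul_of_nonneg_left hp.v10 hq2'.le) (by nlinarith [hp.r1]) ?_ (pow_nonneg hp.u0.le 3)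
    𝓗 ?_
  · refine hmain.trans (ENNReal.ofReal_le_ofReal ?_)
    have hL : 1 + Real.log (Q ^ 2 * V 0) ≤ Q ^ 2 := hp.hlog
    have hL0 : 0 ≤ 1 + Real.log (Q ^ 2 * V 0) := by
      have := Real.log_nonneg (show 1 ≤ Q ^ 2 * V 0 by nlinarith)
      linarith
    have hρ : 0 ≤ Rx T / T := le_trans zero_le_one hp.r1
    exact dts_arith hQ2 hKQ (by linarith) (by linarith) (by linarith) hρ hp.u0
      hp.u1 hp.uV hL0 hL (min_le_left _ _)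
      (le_min (by positivity) (by positivity))
  · -- `300000 P ^ 3 ≤ R`
    have h1 : (300000 : ℝ) ≤ Q := le_trans (by norm_num) hQbig
    calc 300000 * (Q ^ 8) ^ 3 ≤ Q * (Q ^ 8) ^ 3 := mul_le_mul_of_nonneg_right h1 (by positivity)
      _ = Q ^ 25 := by ring
      _ ≤ Q ^ 1000 := pow_le_pow_right₀ hQ1 (by norm_num)
      _ ≤ V 1 := hp.v2.trans hp.v21
      _ ≤ Q ^ 2 * V 1 := by nlinarith
  · -- `8 P r ≤ V₂`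
    have h1 : (8 : ℝ) ≤ Q := le_trans (by norm_num) hQbig
    have hρ : 0 ≤ Rx T / T := le_trans zero_le_one hp.r1
    calc 8 * Q ^ 8 * (Q ^ 2 * (Rx T / T)) ≤ Q * Q ^ 8 * (Q ^ 2 * (Rx T / T)) := by gcongr
      _ = Q ^ 11 * (Rx T / T) := by ring
      _ ≤ Q ^ 100 * (Rx T / T) :=
          mul_le_mul_of_nonneg_right (pow_le_pow_right₀ hQ1 (by norm_num)) hρ
      _ ≤ V 1 := hp.rV
      _ ≤ Q ^ 2 * V 1 := by nlinarith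
  · intro h hh
    obtain ⟨a, b, c, d, e⟩ := hH h hh
    exact ⟨a, b, c, d, e⟩

end Pool.Agent.F5H.K2.H77
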